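import Pool.Agent.Lib.MP_edb5be_nt.PD.Iface

/-!
Project PD (MP_edb5be_nt), module COMP: concatenation (helper57).
-/

set_option autoImplicit false

namespace Pool.Agent.Lib.MP_edb5be_nt.PD.H57

open Finset Pool.Agent.Lib.MP_edb5be_nt.EX

theorem wt_append (u v : List ℕ) : wt (u ++ v) = wt u * wt v := by
  unfold wt
  rw [List.length_append, List.sum_append, pow_add, pow_add, mul_div_mul_comm]

theorem num_append (hW : WordsStatement) (y : ℤ) (u v : List ℕ) :
    2 ^ (u ++ v).sum * y - (cc (u ++ v) : ℤ) =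
      2 ^ v.sum * (2 ^ u.sum * y - cc u) - 3 ^ u.length * cc v := by
  rw [hW.2.1 u v, List.sum_append, pow_add]
  push_cast
  ring

theorem ad_left (hW : WordsStatement) {y : ℤ} {u v : List ℕ} (h : Ad y (u ++ v)) : Ad y u := by
  unfold Ad at h ⊢
  rw [num_append hW, List.length_append, pow_add] at h
  have h1 : (3 : ℤ) ^ u.length ∣ 2 ^ v.sum * (2 ^ u.sum * y - cc u) - 3 ^ u.length * cc v :=
    (dvd_mul_right _ _).trans h
  have h2 : (3 : ℤ) ^ u.length ∣ 2 ^ v.sum * (2 ^ u.sum * y - cc u) := by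
    have := dvd_add h1 (dvd_mul_right ((3 : ℤ) ^ u.length) (cc v : ℤ))
    rwa [sub_add_cancel] at this
  have hc : IsCoprime ((3 : ℤ) ^ u.length) (2 ^ v.sum) :=
    IsCoprime.pow (by rw [Int.isCoprime_iff_gcd_eq_one]; rfl)
  exact hc.dvd_of_dvd_mul_left h2

theorem num_of_ad {y : ℤ} {u : List ℕ} (h : Ad y u) :
    2 ^ u.sum * y - (cc u : ℤ) = 3 ^ u.length * zz y u := by
  unfold zz
  exact (Int.mul_ediv_cancel' h).symm

theorem ad_append (hW : WordsStatement) {y : ℤ} {u v : List ℕ} (h : Ad y u) :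
    Ad y (u ++ v) ↔ Ad (zz y u) v := by
  unfold Ad
  rw [num_append hW, num_of_ad h, List.length_append, pow_add]
  have e : (2 : ℤ) ^ v.sum * (3 ^ u.length * zz y u) - 3 ^ u.length * cc v =
      3 ^ u.length * (2 ^ v.sum * zz y u - cc v) := by ring
  rw [e]
  exact mul_dvd_mul_iff_left (by positivity)

theorem zz_append (hW : WordsStatement) {y : ℤ} {u v : List ℕ} (h : Ad y u) :
    zz y (u ++ v) = zz (zz y u) v := by
  have e1 := num_append hW y u v
  rw [num_of_ad h] at e1
  have e : (2 : ℤ) ^ v.sum * (3 ^ u.length * zz y u) - 3 ^ u.length * cc v =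
      3 ^ u.length * (2 ^ v.sum * zz y u - cc v) := by ring
  rw [e] at e1
  have e2 : zz y (u ++ v) = (2 ^ (u ++ v).sum * y - (cc (u ++ v) : ℤ)) / 3 ^ (u ++ v).length := rfl
  have e3 : zz (zz y u) v = (2 ^ v.sum * zz y u - (cc v : ℤ)) / 3 ^ v.length := rfl
  rw [e2, e1, List.length_append, pow_add, e3]
  exact Int.mul_ediv_mul_of_pos _ _ (by positivity)

/-- COMP -/
theorem comp (hW : WordsStatement) : CompStatement := by
  intro n j U V f y hU hV
  unfold su cat
  rw [sum_filter, sum_image, sum_product, sum_filter]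
  · refine sum_congr rfl fun u hu => ?_
    by_cases h : Ad y u
    · rw [if_pos h, mul_sum, sum_filter]
      refine sum_congr rfl fun v _ => ?_
      by_cases h2 : Ad (zz y u) v
      · rw [if_pos h2, if_pos ((ad_append hW h).2 h2), wt_append, zz_append hW h]
        ring
      · rw [if_neg h2, if_neg fun h3 => h2 ((ad_append hW h).1 h3)]
    · rw [if_neg h]
      exact sum_eq_zero fun v _ => if_neg fun h2 => h (ad_left hW h2)
  · rintro ⟨u, v⟩ h1 ⟨u', v'⟩ h2 h3
    have hu := hU u (mem_product.1 (mem_coe.1 h1)).1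
    have hu' := hU u' (mem_product.1 (mem_coe.1 h2)).1
    obtain ⟨e1, e2⟩ := List.append_inj h3 (hu.trans hu'.symm)
    exact Prod.ext e1 e2

end Pool.Agent.Lib.MP_edb5be_nt.PD.H57
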