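import Pool.Agent.Lib.MP_edb5be_nt.PD.Iface

/-!
Project PD (MP_edb5be_nt), module MEAN: the sums over the residues (helper57).
-/

set_option autoImplicit false

namespace Pool.Agent.Lib.MP_edb5be_nt.PD.H57

open Finset Pool.Agent.Lib.MP_edb5be_nt.EX

/-- multiples of the period -/
theorem per_mul {q : ℤ} {f : ℤ → ℝ} (hf : ∀ x, f (x + q) = f x) (k : ℕ) (x : ℤ) :
    f (x + k * q) = f x := by
  induction k with
  | zero => simp
  | succ k ih =>
    have e : x + ((k + 1 : ℕ) : ℤ) * q = (x + k * q) + q := by push_cast; ring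
    rw [e, hf, ih]

theorem ad_add (y x : ℤ) (u : List ℕ) : Ad (y + 3 ^ u.length * x) u ↔ Ad y u := by
  unfold Ad
  have e : 2 ^ u.sum * (y + 3 ^ u.length * x) - (cc u : ℤ) =
      (2 ^ u.sum * y - cc u) + 3 ^ u.length * (2 ^ u.sum * x) := by ring
  rw [e]
  exact dvd_add_left (dvd_mul_right _ _)

theorem zz_add (y x : ℤ) (u : List ℕ) : zz (y + 3 ^ u.length * x) u = zz y u + 2 ^ u.sum * x := by
  unfold zz
  have e : 2 ^ u.sum * (y + 3 ^ u.length * x) - (cc u : ℤ) =
      (2 ^ u.sum * y - cc u) + 3 ^ u.length * (2 ^ u.sum * x) := by ring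
  rw [e, Int.add_mul_ediv_left _ _ (by positivity)]

theorem cop23 (a b : ℕ) : IsCoprime ((2 : ℤ) ^ a) (((3 ^ b : ℕ) : ℕ) : ℤ) := by
  push_cast
  exact IsCoprime.pow (by rw [Int.isCoprime_iff_gcd_eq_one]; rfl)

/-- exactly one residue is admissible -/
theorem ad_count (hS : SumPStatement) (u : List ℕ) (c : ℝ) :
    (∑ y ∈ range (3 ^ u.length), if Ad y u then c else 0) = c := by
  have h := hS.1 (3 ^ u.length) (fun x => if (3 : ℤ) ^ u.length ∣ x then c else 0) (-(cc u : ℤ))
    (2 ^ u.sum) (by positivity) (fun x => by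
      have e : (3 : ℤ) ^ u.length ∣ x + ((3 ^ u.length : ℕ) : ℤ) ↔ (3 : ℤ) ^ u.length ∣ x := by
        push_cast
        exact dvd_add_left dvd_rfl
      simp only [e]) (cop23 _ _)
  have e1 : (∑ y ∈ range (3 ^ u.length), if Ad y u then c else 0) =
      ∑ x ∈ range (3 ^ u.length), if (3 : ℤ) ^ u.length ∣ -(cc u : ℤ) + 2 ^ u.sum * x then c else 0 := by
    refine sum_congr rfl fun y _ => ?_
    have e : Ad (y : ℤ) u ↔ (3 : ℤ) ^ u.length ∣ -(cc u : ℤ) + 2 ^ u.sum * y := by
      unfold Ad
      rw [neg_add_eq_sub]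
    simp only [e]
  rw [e1, h, sum_eq_single 0]
  · simp
  · intro x hx hx0
    refine if_neg fun hd => ?_
    have hlt := mem_range.1 hx
    have hd2 : 3 ^ u.length ∣ x := by exact_mod_cast hd
    exact absurd (Nat.le_of_dvd (Nat.pos_of_ne_zero hx0) hd2) (by omega)
  · intro h0
    exact absurd (mem_range.2 (by positivity)) h0

/-- the sum for one word -/
theorem mean_word (hS : SumPStatement) (J : ℕ) (u : List ℕ) (f : ℤ → ℝ)
    (hf : ∀ x, f (x + 3 ^ J) = f x) :
    (∑ y ∈ range (3 ^ (u.length + J)), if Ad y u then f (zz y u) else 0) =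
      ∑ x ∈ range (3 ^ J), f x := by
  have h := hS.2 3 u.length J (fun y => if Ad y u then f (zz y u) else 0) (by norm_num)
  rw [h]
  have h1 : ∀ y ∈ range (3 ^ u.length), (∑ x ∈ range (3 ^ J),
      if Ad ((y : ℤ) + ((3 : ℕ) : ℤ) ^ u.length * x) u then
        f (zz ((y : ℤ) + ((3 : ℕ) : ℤ) ^ u.length * x) u) else 0) =
      if Ad y u then ∑ x ∈ range (3 ^ J), f x else 0 := by
    intro y _
    have e3 : (((3 : ℕ) : ℤ)) = 3 := rfl
    simp only [e3, ad_add, zz_add]
    by_cases hy : Ad y u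
    · simp only [if_pos hy]
      exact hS.1 (3 ^ J) f (zz y u) (2 ^ u.sum) (by positivity) (fun x => by
        push_cast
        exact hf x) (cop23 _ _)
    · simp only [if_neg hy, sum_const_zero]
  rw [sum_congr rfl h1, ad_count hS]

/-- MEAN -/
theorem mean (hS : SumPStatement) : MeanStatement := by
  intro n J U f hU hf
  constructor
  · intro y
    unfold su
    rw [sum_filter, sum_filter]
    refine sum_congr rfl fun u hu => ?_
    have hn := hU u hu
    have e : y + 3 ^ (n + J) = y + 3 ^ u.length * 3 ^ J := by rw [hn, pow_add]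
    rw [e]
    simp only [ad_add, zz_add]
    have e2 : f (zz y u + 2 ^ u.sum * 3 ^ J) = f (zz y u) := by
      have := per_mul hf (2 ^ u.sum) (zz y u)
      push_cast at this
      exact this
    rw [e2]
  · have hw := fun u => mean_word hS J u f hf
    generalize (∑ x ∈ range (3 ^ J), f x) = S at hw ⊢
    unfold su
    simp only [sum_filter]
    rw [sum_comm]
    unfold pr
    rw [mul_sum, sum_mul]
    refine sum_congr rfl fun u hu => ?_
    have hn := hU u hu
    have h := hw u
    have e : ∀ y ∈ range (3 ^ (n + J)), (if Ad (y : ℤ) u then wt u * f (zz y u) else 0) =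
        wt u * (if Ad (y : ℤ) u then f (zz y u) else 0) := by
      intro y _
      split_ifs <;> simp
    rw [sum_congr rfl e, ← mul_sum]
    rw [hn] at h
    rw [h]
    congr 1
    unfold wt
    rw [hn]
    ring

end Pool.Agent.Lib.MP_edb5be_nt.PD.H57
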