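import Pool.Agent.Lib.MP_edb5be_nt.PD.Iface

/-!
Project PD (MP_edb5be_nt), module DENS: distinct integers in a short interval (helper57).
-/

set_option autoImplicit false

namespace Pool.Agent.Lib.MP_edb5be_nt.PD.H57

open Finset Pool.Agent.Lib.MP_edb5be_nt.EX

/-- the sum over a period -/
theorem sum_period {q : ℕ} {f : ℤ → ℝ} (hf : ∀ x, f (x + q) = f x) (a : ℤ) :
    ∑ i ∈ range q, f (a + i) = ∑ i ∈ range q, f i := by
  have key : ∀ a : ℤ, ∑ i ∈ range q, f (a + 1 + i) = ∑ i ∈ range q, f (a + i) := by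
    intro a
    have h1 := Finset.sum_range_succ (fun i : ℕ => f (a + i)) q
    have h2 := Finset.sum_range_succ' (fun i : ℕ => f (a + i)) q
    rw [h1] at h2
    have e0 : f (a + ((0 : ℕ) : ℤ)) = f (a + (q : ℤ)) := by
      rw [hf a]
      simp
    have e1 : ∑ i ∈ range q, f (a + ((i + 1 : ℕ) : ℤ)) = ∑ i ∈ range q, f (a + 1 + i) := by
      refine sum_congr rfl fun i _ => ?_
      congr 1
      push_cast
      ring
    rw [e1, e0] at h2
    linarith
  have h : ∀ n : ℕ, (∑ i ∈ range q, f ((n : ℤ) + i) = ∑ i ∈ range q, f i) ∧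
      (∑ i ∈ range q, f (-(n : ℤ) + i) = ∑ i ∈ range q, f i) := by
    intro n
    induction n with
    | zero => constructor <;> simp
    | succ n ih =>
      constructor
      · rw [← ih.1, ← key n]
        refine sum_congr rfl fun i _ => ?_
        push_cast
        rfl
      · rw [← ih.2, ← key (-((n + 1 : ℕ) : ℤ))]
        refine sum_congr rfl fun i _ => ?_
        congr 1
        push_cast
        ring
  obtain ⟨n, rfl | rfl⟩ := a.eq_nat_or_neg
  · exact (h n).1
  · exact (h n).2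

/-- the sum over several periods -/
theorem sum_periods {q : ℕ} {f : ℤ → ℝ} (hf : ∀ x, f (x + q) = f x) (a : ℤ) (k : ℕ) :
    ∑ i ∈ range (k * q), f (a + i) = k * ∑ i ∈ range q, f i := by
  induction k generalizing a with
  | zero => simp
  | succ k ih =>
    rw [Nat.succ_mul, Finset.sum_range_add]
    have e : ∑ i ∈ range q, f (a + ((k * q + i : ℕ) : ℤ)) =
        ∑ i ∈ range q, f ((a + (k * q : ℕ)) + i) := by
      refine sum_congr rfl fun i _ => ?_
      congr 1
      push_cast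
      ring
    rw [ih a, e, sum_period hf]
    push_cast
    ring

/-- the sum over distinct integers of an interval -/
theorem sum_interval {q : ℕ} (hq : 0 < q) {f : ℤ → ℝ} (h0 : ∀ x, 0 ≤ f x)
    (hf : ∀ x, f (x + q) = f x) {L : ℝ} (hL : 0 ≤ L) (T : Finset ℤ)
    (hT : ∀ z ∈ T, ∀ z' ∈ T, ((z' : ℝ) - z) ≤ L) :
    ∑ z ∈ T, f z ≤ (L / q + 1) * ∑ i ∈ range q, f i := by
  have hS : 0 ≤ ∑ i ∈ range q, f i := sum_nonneg fun i _ => h0 _
  have hqR : (0 : ℝ) < q := by exact_mod_cast hq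
  rcases T.eq_empty_or_nonempty with h | h
  · rw [h, sum_empty]
    exact mul_nonneg (by positivity) hS
  · set a := T.min' h with ha
    have haT : a ∈ T := min'_mem T h
    set k : ℕ := ⌊L / q⌋₊ + 1 with hk
    have hsub : T ⊆ (range (k * q)).image fun i : ℕ => a + (i : ℤ) := by
      intro z hz
      have h1 : a ≤ z := min'_le T z hz
      have h2 := hT a haT z hz
      rw [mem_image]
      refine ⟨(z - a).toNat, ?_, ?_⟩
      · rw [mem_range]
        have h3 : (((z - a).toNat : ℕ) : ℝ) = (z : ℝ) - a := by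
          have : (((z - a).toNat : ℕ) : ℤ) = z - a := Int.toNat_of_nonneg (by omega)
          have h4 : (((z - a).toNat : ℕ) : ℝ) = (((z - a).toNat : ℕ) : ℤ) := by push_cast; rfl
          rw [h4, this]
          push_cast
          ring
        have h5 : L / q < k := by
          rw [hk]
          push_cast
          exact Nat.lt_floor_add_one _
        have h6 : L < k * q := (div_lt_iff₀ hqR).1 h5
        have h7 : (((z - a).toNat : ℕ) : ℝ) < ((k * q : ℕ) : ℝ) := by
          rw [h3]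
          push_cast
          linarith
        exact_mod_cast h7
      · rw [Int.toNat_of_nonneg (by omega)]
        ring
    have hinj : Set.InjOn (fun i : ℕ => a + (i : ℤ)) (range (k * q)) := by
      intro i _ j _ hij
      have : (i : ℤ) = j := by
        have h9 : a + (i : ℤ) = a + (j : ℤ) := hij
        linarith
      exact_mod_cast this
    calc ∑ z ∈ T, f z ≤ ∑ z ∈ (range (k * q)).image fun i : ℕ => a + (i : ℤ), f z :=
          sum_le_sum_of_subset_of_nonneg hsub fun z _ _ => h0 z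
      _ = ∑ i ∈ range (k * q), f (a + i) := sum_image hinj
      _ = k * ∑ i ∈ range q, f i := sum_periods hf a k
      _ ≤ (L / q + 1) * ∑ i ∈ range q, f i := by
          refine mul_le_mul_of_nonneg_right ?_ hS
          rw [hk]
          push_cast
          have := Nat.floor_le (show 0 ≤ L / q by positivity)
          linarith

/-- `3 ^ (n + J) ≤ 2 ^ b` -/
theorem pow_cmp {n J b : ℕ} (hJ : 4 * J ≤ n) (hb : 199 * n ≤ 100 * b) : 3 ^ (n + J) ≤ 2 ^ b := by
  have h1 : (3 ^ (n + J)) ^ 100 ≤ (2 ^ b) ^ 100 := by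
    calc (3 ^ (n + J)) ^ 100 = 3 ^ ((n + J) * 100) := by rw [← pow_mul]
      _ ≤ 3 ^ (125 * n) := Nat.pow_le_pow_right (by norm_num) (by omega)
      _ = (3 ^ 125) ^ n := by rw [← pow_mul]
      _ ≤ (2 ^ 199) ^ n := Nat.pow_le_pow_left (by norm_num) n
      _ = 2 ^ (199 * n) := by rw [← pow_mul]
      _ ≤ 2 ^ (b * 100) := Nat.pow_le_pow_right (by norm_num) (by omega)
      _ = (2 ^ b) ^ 100 := by rw [← pow_mul]
  exact (Nat.pow_le_pow_iff_left (by norm_num)).1 h1

theorem num_of_ad' {y : ℤ} {u : List ℕ} (h : Ad y u) :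
    2 ^ u.sum * y - (cc u : ℤ) = 3 ^ u.length * zz y u := by
  unfold zz
  exact (Int.mul_ediv_cancel' h).symm

/-- the words with a given sum -/
theorem dens_fixed (hW : WordsStatement) {Γ : ℝ} {n J b : ℕ} {W : Finset (List ℕ)} {f : ℤ → ℝ}
    {y : ℤ} (hΓ : 0 ≤ Γ) (hG : GW Γ n W) (hJ : 4 * J ≤ n) (h0 : ∀ x, 0 ≤ f x)
    (hf : ∀ x, f (x + 3 ^ J) = f x) (hb : 199 * n ≤ 100 * b) :
    ∑ u ∈ (W.filter (Ad y)).filter (fun u => u.sum = b), wt u * f (zz y u) ≤
      (Γ + 1) * ((∑ x ∈ range (3 ^ J), f x) / 3 ^ J) := by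
  set A := (W.filter (Ad y)).filter (fun u => u.sum = b) with hA
  have hmem : ∀ u ∈ A, u ∈ W ∧ Ad y u ∧ u.sum = b := by
    intro u hu
    rw [hA, mem_filter, mem_filter] at hu
    exact ⟨hu.1.1, hu.1.2, hu.2⟩
  have hS : 0 ≤ ∑ x ∈ range (3 ^ J), f x := sum_nonneg fun i _ => h0 _
  have hinj : Set.InjOn (zz y) A := by
    intro u hu u' hu' he
    obtain ⟨m1, a1, s1⟩ := hmem u hu
    obtain ⟨m2, a2, s2⟩ := hmem u' hu'
    have e1 := num_of_ad' a1
    have e2 := num_of_ad' a2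
    rw [he, hG.len u m1, s1] at e1
    rw [hG.len u' m2, s2] at e2
    have e3 : (cc u : ℤ) = cc u' := by linarith
    exact hW.2.2.2.1 u u' (hG.pos u m1) (hG.pos u' m2) ((hG.len u m1).trans (hG.len u' m2).symm)
      (s1.trans s2.symm) (by exact_mod_cast e3)
  have hpow : (0 : ℝ) < 2 ^ b := by positivity
  have h3 : (0 : ℝ) < 3 ^ n := by positivity
  have hwt : ∀ u ∈ A, wt u * f (zz y u) = 3 ^ n / 2 ^ b * f (zz y u) := by
    intro u hu
    obtain ⟨m1, a1, s1⟩ := hmem u hu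
    unfold wt
    rw [hG.len u m1, s1]
  rw [sum_congr rfl hwt, ← mul_sum]
  have himg : ∑ u ∈ A, f (zz y u) = ∑ z ∈ A.image (zz y), f z := (sum_image hinj).symm
  rw [himg]
  have hint := sum_interval (q := 3 ^ J) (by positivity) h0 (by
    intro x
    push_cast
    exact hf x) (L := Γ * 2 ^ b / 3 ^ n) (by positivity) (A.image (zz y)) (by
    intro z hz z' hz'
    rw [mem_image] at hz hz'
    obtain ⟨u, hu, rfl⟩ := hz
    obtain ⟨u', hu', rfl⟩ := hz'
    obtain ⟨m1, a1, s1⟩ := hmem u hu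
    obtain ⟨m2, a2, s2⟩ := hmem u' hu'
    have e1 := num_of_ad' a1
    have e2 := num_of_ad' a2
    rw [hG.len u m1, s1] at e1
    rw [hG.len u' m2, s2] at e2
    have e1' : (2 : ℝ) ^ b * y - cc u = 3 ^ n * zz y u := by exact_mod_cast e1
    have e2' : (2 : ℝ) ^ b * y - cc u' = 3 ^ n * zz y u' := by exact_mod_cast e2
    have c1 := hG.cb u m1
    rw [s1] at c1
    have c2 : (0 : ℝ) ≤ cc u' := by positivity
    rw [le_div_iff₀ h3]
    nlinarith)
  refine (mul_le_mul_of_nonneg_left hint (by positivity)).trans ?_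
  have hq : (((3 ^ J : ℕ) : ℕ) : ℝ) = 3 ^ J := by push_cast; rfl
  rw [hq]
  have hJ3 : (0 : ℝ) < 3 ^ J := by positivity
  have hcmp : (3 : ℝ) ^ n * 3 ^ J ≤ 2 ^ b := by
    rw [← pow_add]
    exact_mod_cast pow_cmp hJ hb
  have e : (3 : ℝ) ^ n / 2 ^ b * ((Γ * 2 ^ b / 3 ^ n / 3 ^ J + 1) * ∑ x ∈ range (3 ^ J), f x) =
      (Γ + 3 ^ n * 3 ^ J / 2 ^ b) * ((∑ x ∈ range (3 ^ J), f x) / 3 ^ J) := by
    field_simp
  rw [e]
  refine mul_le_mul_of_nonneg_right ?_ (by positivity)
  have : (3 : ℝ) ^ n * 3 ^ J / 2 ^ b ≤ 1 := (div_le_one hpow).2 hcmp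
  linarith

/-- DENS -/
theorem dens (hW : WordsStatement) : DensStatement := by
  intro Γ n J W f y hΓ hG hJ h0 hf
  have hS : 0 ≤ ∑ x ∈ range (3 ^ J), f x := sum_nonneg fun i _ => h0 _
  set B : Finset ℕ := (range (3 * n + 1)).filter fun b => 199 * n ≤ 100 * b ∧ 100 * b ≤ 201 * n
    with hB
  have hmaps : ∀ u ∈ W.filter (Ad y), u.sum ∈ B := by
    intro u hu
    rw [mem_filter] at hu
    have h1 := hG.lo u hu.1
    have h2 := hG.hi u hu.1
    rw [hB, mem_filter, mem_range]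
    exact ⟨by omega, h1, h2⟩
  have hcard : B.card ≤ n + 1 := by
    have hsub : B ⊆ Icc ((199 * n + 99) / 100) (201 * n / 100) := by
      intro b hb
      rw [hB, mem_filter] at hb
      rw [mem_Icc]
      omega
    refine (card_le_card hsub).trans ?_
    rw [Nat.card_Icc]
    omega
  unfold su
  rw [← sum_fiberwise_of_maps_to hmaps]
  have hle : ∀ b ∈ B, ∑ u ∈ (W.filter (Ad y)).filter (fun u => u.sum = b), wt u * f (zz y u) ≤
      (Γ + 1) * ((∑ x ∈ range (3 ^ J), f x) / 3 ^ J) := by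
    intro b hb
    rw [hB, mem_filter] at hb
    exact dens_fixed hW hΓ hG hJ h0 hf hb.2.1
  refine (sum_le_sum hle).trans ?_
  rw [sum_const, nsmul_eq_mul]
  have hx : 0 ≤ (Γ + 1) * ((∑ x ∈ range (3 ^ J), f x) / 3 ^ J) := by positivity
  have hc : (B.card : ℝ) ≤ n + 1 := by exact_mod_cast hcard
  calc (B.card : ℝ) * ((Γ + 1) * ((∑ x ∈ range (3 ^ J), f x) / 3 ^ J)) ≤
      (n + 1) * ((Γ + 1) * ((∑ x ∈ range (3 ^ J), f x) / 3 ^ J)) :=
        mul_le_mul_of_nonneg_right hc hx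
    _ = _ := by ring

end Pool.Agent.Lib.MP_edb5be_nt.PD.H57
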