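import Pool.Agent.Lib.MP_edb5be_nt.PD.Iface4
import Pool.Agent.Lib.MP_edb5be_nt.PD.H84.Child

/-!
Project PD (MP_edb5be_nt), module UCOUNTT: the uniform count in logarithmic time (helper57; adapted
from the modules UCOUNT of helper50 and CHILD of helper84).
-/

set_option autoImplicit false

namespace Pool.Agent.Lib.MP_edb5be_nt.PD.H57

open Finset Pool.Agent.Lib.MP_edb5be_nt.EX Pool.Agent.Lib.MP_edb5be_nt.PD

open H84 in
/-- CHILD with a bound for the number of steps (the proof is that of `H84.child` by helper84) -/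
theorem childT (k : ℕ) (y₀ : ℤ) : ∃ K A : ℕ, ∀ x : ℤ, ¬ (3 : ℤ) ∣ x → ∃ z : ℤ,
    (3 : ℤ) ^ k ∣ z - y₀ ∧ |z| ≤ K * |x| ∧ (∃ a : ℕ, a ≤ A ∧ Tc^[a] z = x) ∧
      ∀ p : ℕ, 1 ≤ p → Tc^[p] z ≠ z := by
  refine ⟨2 ^ (2 * 3 ^ k + (2 * 3 ^ k + 2 * 3 ^ k)), 2 * 3 ^ k + (2 * 3 ^ k + 2 * 3 ^ k),
    fun x hx => ?_⟩
  have hx0 : x ≠ 0 := fun h => hx (by rw [h]; exact dvd_zero _)
  obtain ⟨b, hb1, hb2, hb3⟩ := root k x hx
  obtain ⟨c, hc1, hc2, hc3⟩ := root k (1 + 3 * y₀) (by omega)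
  obtain ⟨a, ha⟩ : ∃ a : ℕ, a + b = c + 2 * 3 ^ k := ⟨c + 2 * 3 ^ k - b, by omega⟩
  set m : ℕ := 2 * 3 ^ k with hm
  have hm1 : 1 ≤ m := by
    rw [hm]
    have : 1 ≤ 3 ^ k := Nat.one_le_pow _ _ (by norm_num)
    omega
  -- the congruence
  have key : ∀ i : ℕ, (3 : ℤ) ^ (k + 1) ∣ 2 ^ (m * i + a) * x - (1 + 3 * y₀) := by
    intro i
    have h1 : (3 : ℤ) ^ (k + 1) ∣ 2 ^ (m * (i + 1)) - 1 := two_pow_mul k (i + 1)
    have e : (2 : ℤ) ^ (m * i + a) * x - (1 + 3 * y₀) =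
        (2 ^ (m * (i + 1)) - 1) * 2 ^ c + (2 ^ c - (1 + 3 * y₀)) - 2 ^ (m * i + a) * (2 ^ b - x) := by
      have e1 : (2 : ℤ) ^ (m * i + a) * 2 ^ b = 2 ^ (m * (i + 1)) * 2 ^ c := by
        rw [← pow_add, ← pow_add]
        congr 1
        rw [add_assoc, ha]
        ring
      rw [mul_sub, e1]
      ring
    rw [e]
    exact dvd_sub (dvd_add (Dvd.dvd.mul_right h1 _) hc3) (Dvd.dvd.mul_left hb3 _)
  have mk : ∀ i : ℕ, ∃ z : ℤ, 3 * z + 1 = 2 ^ (m * i + a) * x ∧ (3 : ℤ) ^ k ∣ z - y₀ := by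
    intro i
    obtain ⟨q, hq⟩ := key i
    refine ⟨y₀ + 3 ^ k * q, ?_, ⟨q, by ring⟩⟩
    have : (2 : ℤ) ^ (m * i + a) * x = 1 + 3 * y₀ + 3 ^ (k + 1) * q := by rw [← hq]; ring
    rw [this]
    ring
  have ha1 : 1 ≤ a := by omega
  have ham : a ≤ 2 * m := by omega
  obtain ⟨z, hz, hzk⟩ := mk 0
  obtain ⟨z', hz', hzk'⟩ := mk 1
  rw [Nat.mul_zero, Nat.zero_add] at hz
  rw [Nat.mul_one] at hz'
  have hK : ∀ i : ℕ, i ≤ m + (m + m) → (2 : ℤ) ^ i * |x| ≤ ((2 ^ (m + (m + m)) : ℕ) : ℤ) * |x| := by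
    intro i hi
    push_cast
    exact mul_le_mul_of_nonneg_right (pow_le_pow_right₀ (by norm_num) hi) (abs_nonneg x)
  by_cases hper : ∃ p : ℕ, 1 ≤ p ∧ Tc^[p] z = z
  · obtain ⟨p, hp, hpz⟩ := hper
    refine ⟨z', hzk', (abs_le_of hx0 hz').trans (hK _ (by omega)), ⟨m + a, by omega, ?_⟩, ?_⟩
    · have := iter_z hz' (by omega) (Nat.add_zero (m + a))
      simpa using this
    · intro p' hp' hpz'
      exact not_both ha1 hm1 hz hz' hp hp' hpz hpz'
  · refine ⟨z, hzk, (abs_le_of hx0 hz).trans (hK _ (by omega)), ⟨a, by omega, ?_⟩, ?_⟩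
    · have := iter_z hz ha1 (Nat.add_zero a)
      simpa using this
    · intro p hp h
      exact hper ⟨p, hp, h⟩

/-- the predecessors of `x` up to `X` in at most `B` steps -/
def PreT (x : ℤ) (X B : ℝ) : Set ℤ :=
  {n : ℤ | |(n : ℝ)| ≤ X ∧ ∃ k : ℕ, (k : ℝ) ≤ B ∧ Tc^[k] n = x}

theorem preT_finite (x : ℤ) (X B : ℝ) : (PreT x X B).Finite := by
  refine (Set.finite_Icc (-⌈X⌉) ⌈X⌉).subset ?_
  rintro n ⟨h, -⟩
  have h1 : ((|n| : ℤ) : ℝ) ≤ (⌈X⌉ : ℝ) := by
    push_cast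
    exact h.trans (Int.le_ceil X)
  have h2 : |n| ≤ ⌈X⌉ := by exact_mod_cast h1
  exact abs_le.1 h2

/-- **UCOUNTT** (the proof is that of `H50.ucount` by helper50, with the number of steps) -/
theorem ucountt (hw : WordsStatement) (hu : UClassTStatement) (hi : InjStatement) :
    UCountTStatement := by
  obtain ⟨Γ, k, K₁, y₀, c, hc0, -, hcl⟩ := hu
  obtain ⟨K, A, hK⟩ := childT k y₀
  set B : ℝ := (K : ℝ) + Γ + 1 with hB
  have hB1 : 1 ≤ B := by
    rw [hB]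
    have h1 : (0 : ℝ) ≤ K := Nat.cast_nonneg K
    have h2 : (0 : ℝ) ≤ Γ := Nat.cast_nonneg Γ
    linarith
  have hB0 : 0 < B := by linarith
  set KK : ℝ := (A : ℝ) + 2 * K₁ + 1 with hKK
  have hKK0 : 0 < KK := by positivity
  refine ⟨min 1 (c / 2) / B, KK, by positivity, hKK0, fun x hx X hX => ?_⟩
  change _ ≤ ((PreT x X (KK * (Real.log (X / |(x : ℝ)|) + 1))).ncard : ℝ)
  obtain ⟨y, hy, hyx, ⟨a, haA, ha⟩, hper⟩ := hK x hx
  have hx0 : x ≠ 0 := by
    rintro rfl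
    exact hx (dvd_zero _)
  have hx1 : (1 : ℝ) ≤ |(x : ℝ)| := by
    have : (1 : ℤ) ≤ |x| := Int.one_le_abs hx0
    exact_mod_cast this
  have hxp : 0 < |(x : ℝ)| := by linarith
  have hq0 : 1 ≤ X / |(x : ℝ)| := by
    rw [le_div_iff₀ hxp, one_mul]
    exact hX
  have hlog0 : 0 ≤ Real.log (X / |(x : ℝ)|) := Real.log_nonneg hq0
  set M : ℝ := B * |(x : ℝ)| with hM
  have hMp : 0 < M := by positivity
  have hfin := preT_finite x X (KK * (Real.log (X / |(x : ℝ)|) + 1))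
  set BB : ℝ := KK * (Real.log (X / |(x : ℝ)|) + 1) with hBB
  have hBB0 : 0 ≤ BB := mul_nonneg hKK0.le (by linarith)
  rcases lt_or_ge X M with h | h
  · -- only `x` itself
    have h1 : x ∈ PreT x X BB := ⟨hX, 0, by simpa using hBB0, rfl⟩
    have h2 : 0 < (PreT x X BB).ncard := (Set.ncard_pos hfin).2 ⟨x, h1⟩
    have h3 : (1 : ℝ) ≤ ((PreT x X BB).ncard : ℝ) := by exact_mod_cast h2
    refine le_trans ?_ h3
    have h4 : X / |(x : ℝ)| ≤ B := by
      rw [div_le_iff₀ hxp]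
      exact h.le
    calc min 1 (c / 2) / B * (X / |(x : ℝ)|) ≤ 1 / B * B := by
          refine mul_le_mul ?_ h4 (by have : 0 ≤ X := by linarith
                                      positivity) (by positivity)
          exact div_le_div_of_nonneg_right (min_le_left _ _) hB0.le
      _ = 1 := by field_simp
  · -- many words
    have hq1 : 1 ≤ X / M := by
      rw [le_div_iff₀ hMp, one_mul]
      exact h
    obtain ⟨L, hL1, hL2⟩ : ∃ L : ℕ, (2 : ℝ) ^ L ≤ X / M ∧ X / M < 2 ^ (L + 1) :=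
      exists_nat_pow_near hq1 (by norm_num)
    obtain ⟨S, hS, hcard⟩ := hcl y hy L
    have hLlog : (L : ℝ) ≤ 2 * Real.log (X / |(x : ℝ)|) := by
      have h1 : (2 : ℝ) ^ L ≤ X / |(x : ℝ)| := by
        refine hL1.trans (div_le_div_of_nonneg_left (by linarith) hxp ?_)
        rw [hM]
        exact le_mul_of_one_le_left hxp.le hB1
      have h2 := Real.log_le_log (by positivity) h1
      rw [Real.log_pow] at h2
      have h3 := Real.log_two_gt_d9
      have h4 : (0 : ℝ) ≤ L := Nat.cast_nonneg L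
      nlinarith
    have hmem : ∀ u ∈ S, zz y u ∈ PreT x X BB := by
      intro u hu
      obtain ⟨hpos, had, hsum, hcc, hsK⟩ := hS u hu
      have hmul : 3 ^ u.length * zz y u = 2 ^ u.sum * y - cc u := by
        unfold zz
        exact Int.mul_ediv_cancel' had
      have hT : Tc^[u.sum] (zz y u) = y :=
        hw.2.2.2.2 u hpos y (zz y u) (by rw [hmul]; ring)
      refine ⟨?_, a + u.sum, ?_, by rw [Function.iterate_add_apply, hT, ha]⟩
      have hmulR : (3 : ℝ) ^ u.length * (zz y u : ℝ) = 2 ^ u.sum * (y : ℝ) - (cc u : ℝ) := by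
        exact_mod_cast hmul
      have h3 : (0 : ℝ) < 3 ^ u.length := by positivity
      have hyR : |(y : ℝ)| ≤ K * |(x : ℝ)| := by exact_mod_cast hyx
      have hccR : (cc u : ℝ) ≤ Γ * 2 ^ u.sum := by exact_mod_cast hcc
      have hsR : (2 : ℝ) ^ u.sum ≤ 2 ^ L * 3 ^ u.length := by exact_mod_cast hsum
      have hcc0 : (0 : ℝ) ≤ (cc u : ℝ) := Nat.cast_nonneg _
      have h4 : (3 : ℝ) ^ u.length * |(zz y u : ℝ)| ≤ 2 ^ u.sum * (|(y : ℝ)| + Γ) := by
        have h5 : (3 : ℝ) ^ u.length * |(zz y u : ℝ)| = |2 ^ u.sum * (y : ℝ) - (cc u : ℝ)| := by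
          rw [← hmulR, abs_mul, abs_of_pos h3]
        rw [h5]
        refine (abs_sub _ _).trans ?_
        rw [abs_mul, abs_of_pos (by positivity : (0 : ℝ) < 2 ^ u.sum), abs_of_nonneg hcc0]
        linarith
      have h6 : |(y : ℝ)| + Γ ≤ M := by
        rw [hM, hB]
        have h7 : (0 : ℝ) ≤ Γ := Nat.cast_nonneg Γ
        nlinarith
      have h8 : (3 : ℝ) ^ u.length * |(zz y u : ℝ)| ≤ 3 ^ u.length * (2 ^ L * M) := by
        calc (3 : ℝ) ^ u.length * |(zz y u : ℝ)| ≤ 2 ^ u.sum * (|(y : ℝ)| + Γ) := h4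
          _ ≤ (2 ^ L * 3 ^ u.length) * M := by
              refine mul_le_mul hsR h6 (by positivity) (by positivity)
          _ = 3 ^ u.length * (2 ^ L * M) := by ring
      have h9 : |(zz y u : ℝ)| ≤ 2 ^ L * M := le_of_mul_le_mul_left h8 h3
      have h10 : (2 : ℝ) ^ L * M ≤ X := by
        rw [le_div_iff₀ hMp] at hL1
        exact hL1
      · exact h9.trans h10
      · have h1 : (a : ℝ) ≤ A := by exact_mod_cast haA
        have h2 : (u.sum : ℝ) ≤ K₁ * (L + 1) := by exact_mod_cast hsK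
        have h3 : (K₁ : ℝ) * (L + 1) ≤ K₁ * (2 * Real.log (X / |(x : ℝ)|) + 1) :=
          mul_le_mul_of_nonneg_left (by linarith) (Nat.cast_nonneg _)
        have h4 : (0 : ℝ) ≤ A * Real.log (X / |(x : ℝ)|) := mul_nonneg (Nat.cast_nonneg _) hlog0
        have h5 : (0 : ℝ) ≤ K₁ := Nat.cast_nonneg _
        rw [hBB, hKK, Nat.cast_add]
        nlinarith
    have hinj : Set.InjOn (zz y) (S : Set (List ℕ)) := by
      intro u hu v hv huv
      obtain ⟨hp1, ha1, -, -, -⟩ := hS u hu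
      obtain ⟨hp2, ha2, -, -, -⟩ := hS v hv
      exact hi y hper u v hp1 hp2 ha1 ha2 huv
    have h1 : (S.image (zz y)).card = S.card := card_image_of_injOn hinj
    have h2 : ((S.image (zz y) : Finset ℤ) : Set ℤ) ⊆ PreT x X BB := by
      intro z hz
      obtain ⟨u, hu, rfl⟩ := mem_image.1 (mem_coe.1 hz)
      exact hmem u hu
    have h3 : S.card ≤ (PreT x X BB).ncard := by
      rw [← h1, ← Set.ncard_coe_finset]
      exact Set.ncard_le_ncard h2 hfin
    have h3R : (S.card : ℝ) ≤ ((PreT x X BB).ncard : ℝ) := by exact_mod_cast h3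
    refine le_trans ?_ (hcard.trans h3R)
    have h4 : X / |(x : ℝ)| ≤ B * (2 * 2 ^ L) := by
      have h5 : X / M < 2 * 2 ^ L := by
        rw [pow_succ] at hL2
        linarith
      rw [div_lt_iff₀ hMp, hM] at h5
      rw [div_le_iff₀ hxp]
      linarith
    have hX0 : 0 ≤ X := by linarith
    calc min 1 (c / 2) / B * (X / |(x : ℝ)|) ≤ c / 2 / B * (B * (2 * 2 ^ L)) := by
          refine mul_le_mul ?_ h4 (by positivity) (by positivity)
          exact div_le_div_of_nonneg_right (min_le_right _ _) hB0.le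
      _ = c * 2 ^ L := by field_simp

end Pool.Agent.Lib.MP_edb5be_nt.PD.H57
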